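import Pool.Agent.X308.Bt.Main

/-!
# Horrocks' bounds with a loss and the inequality of generating functions
-/

set_option autoImplicit false

namespace Pool.Agent.Results.MP_e2ce73_al.AsymptoticBounds

open Pool.Agent.X308.Bt

/-- **Theorem.** The inequality `(1 + x)^m ≤ ∑ β_i(M) x^i` for all `x > 0` and all `M` over `m ≥ 1`
variables is equivalent to the same inequality with a loss `e^(o(m))` in a sequence of dimensions.
It follows from Horrocks' bounds `β_i(M) ≥ (m choose i)` with a loss `e^(o(m))` in a sequence of
dimensions. -/
theorem result (C : BettiClass) :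
    (C.GeneratingFunction ↔ C.GeneratingFunctionWithLoss) ∧
    (C.Horrocks → C.HorrocksWithLoss) ∧ (C.HorrocksWithLoss → C.GeneratingFunction) :=
  ⟨BettiClass.iff_withLoss, BettiClass.horrocksWithLoss_of_horrocks,
    fun h => BettiClass.generatingFunction (BettiClass.generatingFunctionWithLoss h)⟩

end Pool.Agent.Results.MP_e2ce73_al.AsymptoticBounds
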