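import Pool.Agent.X276.GTRd

set_option autoImplicit false

/-!
# The graded total rank inequality

Let `M ≠ 0` be a module of finite length over a polynomial ring `S` in `m` variables over a field of
characteristic zero, supported at the origin and graded by an abelian group `Γ` so that `X_j` has
degree `deg j`. Let `F` be a graded resolution of `M` by finite graded free modules, with
`F_i = ⊕_l S(-g_{i,l})`, so that (for the minimal resolution) the number of `l` with `g_{i,l} = b` is
the graded Betti number `β_{i,b} = dim Tor_i(M, k)_b`. Write `H_M` for the Hilbert series of `M`. Then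

* `H_M(t) * ∑ β_{i,b} t^b` is coefficientwise at least `∏ (1 + t^{deg j}) * H_M(t^2)`; this is the
  total rank inequality in every internal degree;
* for every `i` and `D` the number of `i`-subsets of the variables with total degree `D` is at most
  `∑_b β_{i,b} * dim M_{b-D}`;
* for every positive character `χ` of `Γ` (for `Γ = ℤ`: for `χ(n) = t^n` with a real number `t > 0`)
  `∏ (1 + χ(deg j)) * H_M(χ^2) ≤ H_M(χ) * ∑ β_{i,b} χ(b)`;
* if `M` has the Hilbert series of a complete intersection of degrees `e_1, …, e_m`, then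
  `∑ β_{i,b} χ(b) ≥ ∏ (1 + χ(e_j))`, the value for the complete intersection: with respect to every
  weight, complete intersections have the smallest total Betti numbers among all graded modules with
  their Hilbert series.

For `t = 1` the third statement is the total rank inequality `∑ β_i ≥ 2^m`. It is an equality for
all `t` and all graded complete intersections.
-/

namespace Pool.Agent.Results.MP_e2ce73_al.GradedTotalRank

open MvPolynomial Pool.Agent.X276.GTR

universe u v x

/-- **The result.** -/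
theorem result (k : Type u) [Field k] [CharZero k] (m : ℕ)
    (M : Type v) [AddCommGroup M] [Module k M] [FiniteDimensional k M] [Nontrivial M]
    [Module (MvPolynomial (Fin m) k) M] [IsScalarTower k (MvPolynomial (Fin m) k) M]
    (Γ : Type x) [AddCommGroup Γ] [DecidableEq Γ] (deg : Fin m → Γ) (ℳ : Γ → Submodule k M)
    (hℳ : DirectSum.IsInternal ℳ)
    (hX : ∀ (j : Fin m) (a : Γ), ∀ x ∈ ℳ a,
      (X j : MvPolynomial (Fin m) k) • x ∈ ℳ (a + deg j))
    (hnil : ∀ j : Fin m, ∃ N : ℕ, ∀ x : M, (X j : MvPolynomial (Fin m) k) ^ N • x = 0)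
    (R : GradedRes k deg ℳ) :
    (∀ (E : Γ) (s : Finset Γ),
      ∑ J : Finset (Fin m), ∑ a ∈ s, (if a + a + ∑ j ∈ J, deg j = E then
        Module.finrank k (ℳ a) else 0) ≤
        ∑ i ∈ Finset.range (m + 1), ∑ l : Fin (R.r i), Module.finrank k (ℳ (E - R.g i l))) ∧
    (∀ (i : ℕ) (D : Γ),
      (Finset.univ.filter (fun J : Finset (Fin m) => J.card = i ∧ ∑ j ∈ J, deg j = D)).card ≤
        ∑ l : Fin (R.r i), Module.finrank k (ℳ (R.g i l - D))) ∧
    ∀ χ : Γ → ℝ, (∀ a, 0 < χ a) → (∀ a b, χ (a + b) = χ a * χ b) →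
      (∏ j, (1 + χ (deg j))) * hilb k ℳ (fun a => χ a ^ 2) ≤
        hilb k ℳ χ * ∑ i ∈ Finset.range (m + 1), ∑ l : Fin (R.r i), χ (R.g i l) ∧
      ∀ e : Fin m → Γ, (∀ ψ : Γ → ℝ, (∀ a, 0 < ψ a) → (∀ a b, ψ (a + b) = ψ a * ψ b) →
          ∏ j, (1 - ψ (e j)) = (∏ j, (1 - ψ (deg j))) * hilb k ℳ ψ) →
        ((∀ j, χ (deg j) ≠ 1) ∨ ∀ a, χ a = 1) →
        ∏ j, (1 + χ (e j)) ≤ ∑ i ∈ Finset.range (m + 1), ∑ l : Fin (R.r i), χ (R.g i l) := by
  obtain ⟨h1, h2⟩ := graded_main k m M Γ deg ℳ hℳ hX hnil R
  exact ⟨h1, h2, fun χ hpos hadd =>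
    ⟨weighted k m M Γ deg ℳ hℳ hX hnil R χ hpos hadd, fun e he hχ =>
      comparison k m M Γ deg ℳ hℳ hX hnil R e he χ hpos hadd hχ⟩⟩

end Pool.Agent.Results.MP_e2ce73_al.GradedTotalRank
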